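import Pool.Agent.Helper94.UP.Sheet

/-! Row A1: smooth approximation with a bad constant. -/

open scoped ZeroAtInfty ContDiff NNReal
open Set Filter Topology MeasureTheory

namespace Pool.Agent.Helper94.UP

open Pool.Agent.Helper94.UF Pool.Agent.Helper94.SR

theorem stA1.{u, v} (h1 : ST_HT.{u, v}) (h2 : ST_HC.{u, v}) (h3 : ST_SL.{u, v}) :
    ST_A1.{u, v} := by
  intro k X _ _ Γ hk K
  refine ⟨K.L / K.c, div_pos K.L0 K.c0, ?_⟩
  intro f Λ hΛ hf hL ε hε
  set R : ℝ := Λ / K.c with hR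
  have hR0 : 0 ≤ R := div_nonneg hΛ K.c0.le
  set δ : ℝ := ε / (2 * (R + 1)) with hδd
  have hδ : 0 < δ := by positivity
  obtain ⟨hT, hH⟩ := h1 K f R δ hR0 hδ (fun x => (hf x).1)
  obtain ⟨hs1, hs2⟩ := h3 K (Hf K f R δ) R δ hδ hR0 hT hH
  refine ⟨sm K hδ (Hf K f R δ), sm_contDiff K hδ hk hT, ?_, ?_⟩
  · intro x y
    refine (hs1 x y).trans (le_of_eq ?_)
    rw [hR]
    have := K.c0.ne'
    field_simp
  · intro x
    have a1 := hs2 x
    have a2 := h2 K f Λ δ hΛ hδ hf hL x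
    rw [← hR] at a2
    have a3 : Real.exp (-2) ≤ 1 := Real.exp_le_one_iff.2 (by norm_num)
    have a4 : R * (δ * Real.exp (-2)) ≤ R * δ := by
      apply mul_le_mul_of_nonneg_left _ hR0
      exact mul_le_of_le_one_right hδ.le a3
    have a5 : R * δ ≤ ε / 2 := by
      calc R * δ ≤ (R + 1) * δ := mul_le_mul_of_nonneg_right (by linarith) hδ.le
        _ = ε / 2 := by rw [hδd]; field_simp
    have a6 : |sm K hδ (Hf K f R δ) x - f x| ≤
        |sm K hδ (Hf K f R δ) x - Hf K f R δ (K.Φ x)| + |Hf K f R δ (K.Φ x) - f x| :=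
      abs_sub_le _ _ _
    have a7 : 0 ≤ R * δ := mul_nonneg hR0 hδ.le
    linarith

end Pool.Agent.Helper94.UP
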